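import Mathlib
import Pool.Agent.R198.MOFFinal

/-!
# The maximum oriented forcing number can be smaller than `n - μ(G)`

The truncated Petersen graph (30 vertices) has `MOF ≤ 14` and matching number (at most) 15.
-/

namespace Pool.Agent.Results.MP_610dff_co.BelowMatching

variable {V : Type*}

/-- `D` (with `D u v` for: `(u, v)` is an arc) is an orientation of `G`: every edge `uv` is
replaced by exactly one of the arcs `(u, v)`, `(v, u)`. -/
structure IsOrientation (G : SimpleGraph V) (D : V → V → Prop) : Prop where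
  arc_adj : ∀ u v, D u v → G.Adj u v
  adj_arc : ∀ u v, G.Adj u v → D u v ∨ D v u
  asymm : ∀ u v, D u v → ¬ D v u

/-- One step of the colour change rule: `C` is the set of coloured vertices; every coloured
vertex `u` with exactly one uncoloured out-neighbour `v` colours `v` (all these simultaneously). -/
def step (D : V → V → Prop) (C : Set V) : Set V :=
  C ∪ {v | ∃ u ∈ C, {w | D u w ∧ w ∉ C} = {v}}

/-- `S` is a forcing set of `D`: it is nonempty and after some number of steps every vertex is
coloured. -/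
def IsForcing (D : V → V → Prop) (S : Finset V) : Prop :=
  S.Nonempty ∧ ∃ t : ℕ, (step D)^[t] (S : Set V) = Set.univ

/-- `F D`, the oriented forcing number: the least size of a forcing set of `D`. -/
noncomputable def F (D : V → V → Prop) : ℕ :=
  sInf {m | ∃ S : Finset V, IsForcing D S ∧ S.card = m}

/-- `MOF G`, the largest value of `F D` over the orientations `D` of `G`. -/
noncomputable def MOF (G : SimpleGraph V) : ℕ :=
  sSup {m | ∃ D : V → V → Prop, IsOrientation G D ∧ F D = m}

/-- `M` is a set of pairwise disjoint edges of `G`. -/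
def IsMatching (G : SimpleGraph V) (M : Finset (Sym2 V)) : Prop :=
  (∀ e ∈ M, e ∈ G.edgeSet) ∧ ∀ e ∈ M, ∀ f ∈ M, e ≠ f → ∀ v : V, ¬ (v ∈ e ∧ v ∈ f)

/-- The matching number `μ(G)`. -/
noncomputable def μ (G : SimpleGraph V) : ℕ :=
  sSup {m | ∃ M : Finset (Sym2 V), IsMatching G M ∧ M.card = m}

theorem F_le {D : Fin 30 → Fin 30 → Prop} (hD : IsOrientation R198.MOFC.G30 D) : F D ≤ 14 := by
  obtain ⟨S, hS, hc, hfin⟩ := R198.MOFC.final D hD.arc_adj hD.adj_arc hD.asymm
  obtain ⟨t, ht⟩ := hfin (fun t => (step D)^[t] (S : Set (Fin 30))) (fun x hx => hx)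
    (fun t => by
      simp only [Function.iterate_succ_apply']
      exact Set.subset_union_left)
    (fun t u v hu hd hw => by
      simp only [Function.iterate_succ_apply']
      by_cases hv : v ∈ (step D)^[t] (S : Set (Fin 30))
      · exact Or.inl hv
      · refine Or.inr ⟨u, hu, ?_⟩
        ext w
        simp only [Set.mem_ofPred_eq, Set.mem_singleton_iff]
        constructor
        · rintro ⟨hw1, hw2⟩
          by_contra hne
          exact hw2 (hw w hw1 hne)
        · rintro rfl
          exact ⟨hd, hv⟩)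
  refine le_trans (Nat.sInf_le ⟨S, ⟨hS, t, ht⟩, rfl⟩) hc

theorem matching_le {n : ℕ} (G : SimpleGraph (Fin n)) {M : Finset (Sym2 (Fin n))}
    (hM : IsMatching G M) : 2 * M.card ≤ n := by
  classical
  have hcard : ∀ e ∈ M, (e.toFinset).card = 2 := by
    intro e he
    exact Sym2.card_toFinset_of_not_isDiag e (G.not_isDiag_of_mem_edgeSet (hM.1 e he))
  have hdisj : ∀ e ∈ M, ∀ f ∈ M, e ≠ f → Disjoint e.toFinset f.toFinset := by
    intro e he f hf hne
    rw [Finset.disjoint_left]
    intro v h1 h2
    exact hM.2 e he f hf hne v ⟨Sym2.mem_toFinset.1 h1, Sym2.mem_toFinset.1 h2⟩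
  have h : (M.biUnion fun e => e.toFinset).card = M.card * 2 := by
    rw [Finset.card_biUnion hdisj, Finset.sum_congr rfl hcard, Finset.sum_const, smul_eq_mul]
  have h2 : (M.biUnion fun e => e.toFinset).card ≤ n := by
    have := Finset.card_le_univ (M.biUnion fun e => e.toFinset)
    simpa using this
  rw [h] at h2
  omega

/-- There is a graph `G` with `n ≥ 2` vertices and `MOF(G) < n - μ(G)` (here `n = 30`). -/
theorem result : ∃ (n : ℕ) (G : SimpleGraph (Fin n)), 2 ≤ n ∧
    (∀ D : Fin n → Fin n → Prop, IsOrientation G D → (F D : ℤ) < (n : ℤ) - (μ G : ℤ)) ∧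
    (MOF G : ℤ) < (n : ℤ) - (μ G : ℤ) := by
  have hμ : μ R198.MOFC.G30 ≤ 15 := by
    apply csSup_le
    · exact ⟨0, ∅, ⟨by simp, by simp⟩, rfl⟩
    · rintro m ⟨M, hM, rfl⟩
      have := matching_le _ hM
      omega
  refine ⟨30, R198.MOFC.G30, by norm_num, ?_, ?_⟩
  · intro D hD
    have := F_le hD
    push_cast
    omega
  · have h : MOF R198.MOFC.G30 ≤ 14 := by
      apply csSup_le
      · obtain ⟨D, h1, h2, h3⟩ := R198.MOFC.exists_ori
        exact ⟨F D, D, ⟨h1, h2, h3⟩, rfl⟩
      · rintro m ⟨D, hD, rfl⟩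
        exact F_le hD
    push_cast
    omega

end Pool.Agent.Results.MP_610dff_co.BelowMatching
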